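import Pool.Agent.Lib.ES.Top

/-!
MP_fffbc3_nt: the exceptional set of `m / n = 1 / u + 1 / v + 1 / w`.

For every `m ≥ 1` there are `c, C > 0` and `N0` such that every interval `(x, x + N]` with `N ≥ N0`
contains at most `N exp (-(c (log N) ^ (3 / 4) / (log log N) ^ C))` integers `n` for which `m / n` is
not a sum of three unit fractions. `m = 5` is the equation of Sierpinski.
-/

namespace Pool.Agent.Results.MP_fffbc3_nt.ExceptionalSet

theorem result (m : ℕ) (hm : 1 ≤ m) :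
    ∃ c C : ℝ, 0 < c ∧ 0 < C ∧ ∃ N0 : ℕ, ∀ N : ℕ, N0 ≤ N → ∀ x : ℕ,
      (({n : ℕ | x < n ∧ n ≤ x + N ∧ ¬ ∃ u v w : ℕ, 0 < u ∧ 0 < v ∧ 0 < w ∧
        (m : ℚ) / n = 1 / u + 1 / v + 1 / w}.ncard : ℕ) : ℝ) ≤
      N * Real.exp (-(c * Real.log N ^ ((3 : ℝ) / 4) / Real.log (Real.log N) ^ C)) :=
  ES.MainE_proof m hm

end Pool.Agent.Results.MP_fffbc3_nt.ExceptionalSet
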